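import Pool.Agent.R184CA.C0
import Pool.Agent.R184CA.CalkinDef

/-! The non-separable algebra `C(βℕ)` is a Calkin algebra. -/

namespace Pool.Agent.Results.MP_8d7136_an.BetaN

open Filter Topology ZeroAtInfty Pool.Agent.R184CA Pool.Agent.R184CA.C0

/-- the coordinate projections of `c₀` -/
noncomputable def pr (i : ℕ) : C₀(ℕ, ℂ) →L[ℂ] C₀(ℕ, ℂ) :=
  wc (fun k => if k = i then 1 else 0) 1 (wc_bound (fun k => k = i)) 0

lemma pr_apply (i : ℕ) (x : C₀(ℕ, ℂ)) (k : ℕ) : pr i x k = if k = i then x k else 0 := by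
  unfold pr; rw [wc_apply, add_zero]; split_ifs <;> simp

/-- the system -/
noncomputable def S : HSys ℂ C₀(ℕ, ℂ) where
  Q := Q
  W := fun _ => {1} ∪ Set.range pr
  mul := Q_mul
  norm := norm_Q
  fin := Q_fin
  lim := Q_lim
  W_count := fun _ => (Set.countable_singleton _).union (Set.countable_range _)
  W_norm := by
    rintro n w (hw | ⟨i, rfl⟩)
    · rw [Set.mem_singleton_iff] at hw
      rw [hw]; exact ContinuousLinearMap.norm_id_le
    · exact norm_wc_le _ _ _ _
  W_one := fun _ => Or.inl rfl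
  W_map := by
    rintro n w (hw | ⟨i, rfl⟩)
    · rw [Set.mem_singleton_iff] at hw
      refine ⟨n, ?_⟩
      rw [hw, one_mul, Q_mul, min_self]
    · refine ⟨n, ?_⟩
      ext x k
      simp only [mul_apply_eq_comp, Q_apply, pr_apply]
      split_ifs <;> simp

/-- multiplication operators -/
noncomputable def π : C(StoneCech ℕ, ℂ) →ₐ[ℂ] (C₀(ℕ, ℂ) →L[ℂ] C₀(ℕ, ℂ)) where
  toFun f := wc (fun n => f (stoneCechUnit n)) ‖f‖ (fun n => f.norm_coe_le_norm _) 0
  map_one' := by ext x k; simp
  map_mul' f g := by ext x k; simp [mul_assoc]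
  map_zero' := by ext x k; simp
  map_add' f g := by ext x k; simp [add_mul]
  commutes' z := by ext x k; simp [Algebra.algebraMap_eq_smul_one]

lemma π_apply (f : C(StoneCech ℕ, ℂ)) (x : C₀(ℕ, ℂ)) (k : ℕ) :
    π f x k = f (stoneCechUnit k) * x k := rfl

lemma norm_π (f : C(StoneCech ℕ, ℂ)) : ‖π f‖ ≤ ‖f‖ :=
  norm_wc_le _ _ (fun _ => f.norm_coe_le_norm _) _

lemma norm_π' (f : C(StoneCech ℕ, ℂ)) : ‖f‖ ≤ ‖π f‖ := by
  refine (ContinuousMap.norm_le f (norm_nonneg (π f))).2 fun x => ?_
  have hcl : IsClosed {x : StoneCech ℕ | ‖f x‖ ≤ ‖π f‖} :=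
    isClosed_le (by fun_prop) continuous_const
  have h1 : ∀ n : ℕ, stoneCechUnit n ∈ {x : StoneCech ℕ | ‖f x‖ ≤ ‖π f‖} := by
    intro n
    have h2 : π f (e n) n = f (stoneCechUnit n) := by rw [π_apply, e_apply]; simp
    change ‖f (stoneCechUnit n)‖ ≤ ‖π f‖
    rw [← h2]
    refine (norm_apply_le _ _).trans ((ContinuousLinearMap.le_opNorm _ _).trans ?_)
    have := norm_e (𝕜 := ℂ) n
    have := norm_nonneg (π f)
    nlinarith
  exact (denseRange_stoneCechUnit (α := ℕ)).induction_on (p := fun x => ‖f x‖ ≤ ‖π f‖) x hcl h1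

/-- an operator which commutes with the coordinate projections is a multiplication operator -/
lemma mem_range (s : C₀(ℕ, ℂ) →L[ℂ] C₀(ℕ, ℂ)) (hs : ∀ i, s * pr i = pr i * s) :
    s ∈ Set.range π := by
  let a : ℕ → Metric.closedBall (0 : ℂ) ‖s‖ := fun n => ⟨s (e n) n, by
    rw [mem_closedBall_zero_iff]
    refine (norm_apply_le _ _).trans ((ContinuousLinearMap.le_opNorm _ _).trans ?_)
    have := norm_e (𝕜 := ℂ) n
    have := norm_nonneg s
    nlinarith⟩
  have ha : Continuous a := continuous_of_discreteTopology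
  have hK : CompactSpace (Metric.closedBall (0 : ℂ) ‖s‖) :=
    isCompact_iff_compactSpace.1 (isCompact_closedBall 0 ‖s‖)
  let f : C(StoneCech ℕ, ℂ) :=
    ⟨fun x => ((stoneCechExtend ha x : Metric.closedBall (0 : ℂ) ‖s‖) : ℂ),
      continuous_subtype_val.comp (continuous_stoneCechExtend ha)⟩
  have hf : ∀ n, f (stoneCechUnit n) = s (e n) n := fun n => by
    change ((stoneCechExtend ha (stoneCechUnit n) : Metric.closedBall (0 : ℂ) ‖s‖) : ℂ) = _
    rw [stoneCechExtend_stoneCechUnit]
  refine ⟨f, ?_⟩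
  ext x k
  rw [π_apply, hf]
  have h1 : pr k x = x k • e k := by
    ext j
    rw [pr_apply, ZeroAtInftyContinuousMap.smul_apply, e_apply]
    split_ifs with h
    · rw [h]; simp
    · simp
  have h2 : s x k = (pr k * s) x k := by rw [mul_apply_eq_comp, pr_apply, if_pos rfl]
  rw [h2, ← hs k, mul_apply_eq_comp, h1, map_smul, ZeroAtInftyContinuousMap.smul_apply, smul_eq_mul,
    mul_comm]

/-- `C(βℕ)` is a Calkin algebra. -/
theorem isCalkin_betaN : IsCalkin ℂ C(StoneCech ℕ, ℂ) := by
  obtain ⟨X, i1, i2, i3, P, φ, -, -, -, -, h1, h2, h3⟩ := main S π 1 one_pos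
    (fun a => by rw [one_mul]; exact norm_π a) (fun a => by rw [one_mul]; exact norm_π' a)
    (by
      intro s hs
      refine mem_range s fun i => ?_
      have key : ∀ m, (s * pr i - pr i * s) * Q m = 0 := by
        intro m
        have h4 : ∀ δ > 0, ‖(s * pr i - pr i * s) * Q m‖ ≤ δ := by
          intro δ hδ
          obtain ⟨n, hn, h⟩ := hs δ hδ m
          have h5 := h (pr i) (Or.inr ⟨i, rfl⟩)
          have h6 : (s * pr i - pr i * s) * Q m = ((s * pr i - pr i * s) * Q n) * Q m := by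
            rw [mul_assoc _ (Q n) (Q m), Q_mul, min_eq_right hn]
          rw [h6]
          refine (norm_mul_le _ _).trans ?_
          have h7 : ‖(s * pr i - pr i * s) * Q n‖ ≤ δ := h5
          have h8 := norm_Q (𝕜 := ℂ) m
          have h9 := norm_nonneg (Q m : C₀(ℕ, ℂ) →L[ℂ] C₀(ℕ, ℂ))
          nlinarith [norm_nonneg ((s * pr i - pr i * s) * Q n)]
        exact norm_le_zero_iff.1 (le_of_forall_pos_le_add fun δ hδ => by
          rw [zero_add]; exact h4 δ hδ)
      rw [← sub_eq_zero]
      ext1 x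
      have h1 : Tendsto (fun m => (s * pr i - pr i * s) (Q m x)) atTop
          (𝓝 ((s * pr i - pr i * s) x)) :=
        ((s * pr i - pr i * s).continuous.tendsto _).comp (Q_lim x)
      have h2 : ∀ m, (s * pr i - pr i * s) (Q m x) = 0 := fun m => DFunLike.congr_fun (key m) x
      simp only [h2] at h1
      exact (tendsto_nhds_unique h1 tendsto_const_nhds))
    Set.univ (by
      rw [Set.eq_univ_iff_forall]
      exact fun a => subset_closure (Algebra.subset_adjoin (Set.mem_univ a)))
    (by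
      intro f _
      refine ⟨0, fun n _ => ⟨?_, ?_⟩⟩
      · ext x k
        change Q n (π f (Q n x)) k = π f (Q n x) k
        rw [Q_apply, π_apply, Q_apply]
        split_ifs <;> simp
      · rintro w (hw | ⟨i, rfl⟩)
        · rw [Set.mem_singleton_iff] at hw
          rw [hw, one_mul, mul_one]
        · ext x k
          simp only [mul_apply_eq_comp, π_apply, pr_apply]
          split_ifs <;> simp)
  exact isCalkin_of_hom φ h1 h2 h3

/-- `C(βℕ)` is not separable. -/
theorem not_separable : ¬ TopologicalSpace.SeparableSpace C(StoneCech ℕ, ℂ) := by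
  classical
  intro hsep
  let a : Set ℕ → ℕ → Metric.closedBall (0 : ℂ) 1 := fun A n =>
    ⟨if n ∈ A then 1 else 0, by rw [mem_closedBall_zero_iff]; split_ifs <;> simp⟩
  have ha : ∀ A, Continuous (a A) := fun A => continuous_of_discreteTopology
  have hK : CompactSpace (Metric.closedBall (0 : ℂ) 1) :=
    isCompact_iff_compactSpace.1 (isCompact_closedBall 0 1)
  let f : Set ℕ → C(StoneCech ℕ, ℂ) := fun A =>
    ⟨fun x => ((stoneCechExtend (ha A) x : Metric.closedBall (0 : ℂ) 1) : ℂ),
      continuous_subtype_val.comp (continuous_stoneCechExtend (ha A))⟩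
  have hf : ∀ A n, f A (stoneCechUnit n) = if n ∈ A then 1 else 0 := fun A n => by
    change ((stoneCechExtend (ha A) (stoneCechUnit n) : Metric.closedBall (0 : ℂ) 1) : ℂ) = _
    rw [stoneCechExtend_stoneCechUnit]
  have hdist : ∀ A B, A ≠ B → 1 ≤ dist (f A) (f B) := by
    intro A B hAB
    obtain ⟨n, hn⟩ : ∃ n, ¬ (n ∈ A ↔ n ∈ B) := by
      by_contra hcon
      push Not at hcon
      exact hAB (Set.ext hcon)
    rw [dist_eq_norm]
    refine le_trans ?_ ((f A - f B).norm_coe_le_norm (stoneCechUnit n))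
    rw [ContinuousMap.sub_apply, hf, hf]
    by_cases h1 : n ∈ A <;> by_cases h2 : n ∈ B
    · exact absurd ⟨fun _ => h2, fun _ => h1⟩ hn
    · simp [h1, h2]
    · simp [h1, h2]
    · exact absurd ⟨fun h => absurd h h1, fun h => absurd h h2⟩ hn
  have hcount : (Set.univ : Set (Set ℕ)).Countable := by
    refine Set.PairwiseDisjoint.countable_of_isOpen (s := fun A => Metric.ball (f A) (1 / 2)) ?_
      (fun A _ => Metric.isOpen_ball) (fun A _ => ⟨f A, Metric.mem_ball_self (by norm_num)⟩)
    intro A _ B _ hAB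
    rw [Function.onFun, Set.disjoint_left]
    intro g hg1 hg2
    rw [Metric.mem_ball] at hg1 hg2
    have h1 := hdist A B hAB
    have h2 := dist_triangle_left (f A) (f B) g
    linarith
  have : Countable (Set ℕ) := Set.countable_univ_iff.1 hcount
  obtain ⟨g, hg⟩ := exists_surjective_nat (Set ℕ)
  exact Function.cantor_surjective g hg

/-- There is a compact Hausdorff space `K` (namely `K = βℕ`) with `C(K)` non-separable such that
`C(K)` is a Calkin algebra. -/
theorem result : IsCalkin ℂ C(StoneCech ℕ, ℂ) ∧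
    ¬ TopologicalSpace.SeparableSpace C(StoneCech ℕ, ℂ) :=
  ⟨isCalkin_betaN, not_separable⟩

end Pool.Agent.Results.MP_8d7136_an.BetaN
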